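import Pool.Agent.Results.MP_245e03_an.NonreflexiveContainsJDual
import Pool.Agent.V8H50.JTB.Pack

/-!
# Non-separable subspaces of the dual of the James tree space contain its predual (MP_245e03_an, Q2)

`Tree` is the set of finite 0-1 sequences (`List Bool`), ordered by extension, and `Pre Tree` is the
space of finitely supported functions `x : Tree → ℝ` with the norm
`sup (∑_{S ∈ P} (∑_{i ∈ S} x i)²)^(1/2)`, the supremum over the finite families `P` of pairwise
disjoint segments of `Tree` (`Pool.Agent.R277.JT.Def`); `JT` is its completion, `Dual E` is the dual
of a normed space `E`, and `Contains E F` says that some closed subspace of `E` is isomorphic to `F`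
(`Pool.Agent.Results.MP_245e03_an.NonreflexiveContainsJDual`).
-/

set_option autoImplicit false

namespace Pool.Agent.Results.MP_245e03_an.NonseparableContainsB

open Pool.Agent.R277.JT UniformSpace
open Pool.Agent.Results.MP_245e03_an.NonreflexiveContainsJDual

/-- The unit vector `e_α` of `JT`. -/
noncomputable def unitVec (α : Tree) : JT := ((ev α : Pre Tree) : Completion (Pre Tree))

/-- The biorthogonal functional `e*_α ∈ JT*`: the functional on `JT` whose value at a finitely
supported function `x` is `x α`. Here `Pool.Agent.V8H50.JTB.bio α` is the functional `x ↦ x α` on
`Pre Tree`, and `eT` is the isometric isomorphism from the dual of `JT` onto the dual of `Pre Tree`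
given by restriction. -/
noncomputable def estar (α : Tree) : Dual JT := eT.symm (Pool.Agent.V8H50.JTB.bio α)

/-- The value of `e*_α` at a finitely supported function is its value at `α`. -/
theorem estar_apply (α : Tree) (x : Pre Tree) :
    (show StrongDual ℝ (Completion (Pre Tree)) from estar α) (x : Completion (Pre Tree)) =
      x.val α :=
  Pool.Agent.V8H50.JTB.eT_symm_apply _ x

open Classical in
/-- The functionals `e*_α` are biorthogonal to the unit vectors. -/
theorem estar_unitVec (α β : Tree) :
    (show StrongDual ℝ JT from estar α) (unitVec β) = if β = α then 1 else 0 := by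
  rw [← val_ev]
  exact estar_apply α (ev β)

/-- The space `𝓑`: the closed linear span of the biorthogonal functionals in `JT*`. -/
noncomputable def predual : Submodule ℝ (Dual JT) :=
  (Submodule.span ℝ (Set.range estar)).topologicalClosure

/-- Q2: every non-separable closed subspace `Y` of `JT*` contains `𝓑`. -/
theorem result (Y : Submodule ℝ (Dual JT)) (hYc : IsClosed (Y : Set (Dual JT)))
    (hY : ¬ TopologicalSpace.SeparableSpace Y) : Contains Y predual :=
  Pool.Agent.V8H50.JTB.pack Y hYc hY

end Pool.Agent.Results.MP_245e03_an.NonseparableContainsB
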